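import Mathlib

set_option autoImplicit false

namespace Pool.Agent.Results.MP_01ee34_gt.Band

open Metric

theorem result : ∃ F : Fin 2 → Set (EuclideanSpace ℝ (Fin 3)), (∀ i, IsClosed (F i)) ∧
    (⋃ i, F i) = sphere 0 1 ∧
    ∀ i, ∃ A : Finset (EuclideanSpace ℝ (Fin 3)), A.card = 3 ∧
      (A : Set (EuclideanSpace ℝ (Fin 3))) ⊆ sphere 0 1 ∧
      ∀ ρ : EuclideanSpace ℝ (Fin 3) ≃ₗᵢ[ℝ] EuclideanSpace ℝ (Fin 3), ¬ ρ '' A ⊆ F i := by
  classical
  have c : Continuous fun x : EuclideanSpace ℝ (Fin 3) => |x 0| := by fun_prop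
  refine ⟨![sphere 0 1 ∩ {x | 11 / 20 ≤ |x 0|}, sphere 0 1 ∩ {x | |x 0| ≤ 11 / 20}], ?_, ?_, ?_⟩
  · intro i
    fin_cases i
    · exact isClosed_sphere.inter (isClosed_le continuous_const c)
    · exact isClosed_sphere.inter (isClosed_le c continuous_const)
  · ext x
    simp only [Set.mem_iUnion, Fin.exists_fin_two, Matrix.cons_val, Set.mem_inter_iff,
      Set.mem_ofPred_eq]
    have := le_total (11 / 20) |x 0|
    tauto
  · intro i
    fin_cases i
    · have s3 : √3 ^ 2 = 3 := Real.sq_sqrt (by norm_num)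
      have s4 : 0 < √3 := by positivity
      refine ⟨{!₂[1, 0, 0], !₂[-1 / 2, √3 / 2, 0], !₂[-1 / 2, -√3 / 2, 0]}, ?_, ?_, fun ρ h => ?_⟩
      · refine Finset.card_eq_three.2 ⟨_, _, _, fun h => ?_, fun h => ?_, fun h => ?_, rfl⟩
        · have := congrArg (· 0) h
          norm_num at this
        · have := congrArg (· 0) h
          norm_num at this
        · have := congrArg (· 1) h
          simp at this
          linarith
      · intro x hx
        simp only [Finset.coe_insert, Finset.coe_singleton, Set.mem_insert_iff,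
          Set.mem_singleton_iff] at hx
        rcases hx with rfl | rfl | rfl <;>
          simp [EuclideanSpace.norm_eq, Fin.sum_univ_three, div_pow, s3] <;> norm_num
      · have h1 := h ⟨!₂[1, 0, 0], by simp, rfl⟩
        have h2 := h ⟨!₂[-1 / 2, √3 / 2, 0], by simp, rfl⟩
        have h3 := h ⟨!₂[-1 / 2, -√3 / 2, 0], by simp, rfl⟩
        have h4 : ρ !₂[1, 0, 0] + ρ !₂[-1 / 2, √3 / 2, 0] + ρ !₂[-1 / 2, -√3 / 2, 0] = 0 := by
          rw [← map_add, ← map_add, ← map_zero ρ]
          congr 1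
          ext j
          fin_cases j <;> simp <;> ring
        have h5 := congrArg (· 0) h4
        have b : ∀ x : EuclideanSpace ℝ (Fin 3), x ∈ sphere 0 1 → |x 0| ≤ 1 := fun x hx =>
          (PiLp.norm_apply_le x 0).trans (mem_sphere_zero_iff_norm.1 hx).le
        have h6 := b _ h1.1
        have h7 := b _ h2.1
        have h8 := b _ h3.1
        have h9 : (11 / 20 : ℝ) ≤ |_| := h1.2
        have h10 : (11 / 20 : ℝ) ≤ |_| := h2.2
        have h11 : (11 / 20 : ℝ) ≤ |_| := h3.2
        simp only [PiLp.add_apply, PiLp.zero_apply] at h5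
        rw [abs_le] at h6 h7 h8
        rw [le_abs] at h9 h10 h11
        rcases h9 with h9 | h9 <;> rcases h10 with h10 | h10 <;> rcases h11 with h11 | h11 <;>
          linarith [h6.1, h6.2, h7.1, h7.2, h8.1, h8.2]
    · let e := EuclideanSpace.basisFun (Fin 3) ℝ
      refine ⟨Finset.univ.image e, ?_, ?_, fun ρ h => ?_⟩
      · rw [Finset.card_image_of_injective _ e.orthonormal.linearIndependent.injective]
        simp
      · intro x hx
        obtain ⟨i, -, rfl⟩ := Finset.mem_image.1 hx
        simp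
      · have h1 : ∀ i, ‖inner ℝ (e 0) (e.map ρ i)‖ ^ 2 ≤ (11 / 20) ^ 2 := by
          intro i
          have h2 : |ρ (e i) 0| ≤ 11 / 20 := (h ⟨e i, by simp, rfl⟩).2
          refine pow_le_pow_left₀ (norm_nonneg _) ?_ 2
          simpa [e, EuclideanSpace.inner_single_left] using h2
        have h2 := (e.map ρ).sum_sq_norm_inner_left (e 0)
        rw [Fin.sum_univ_three, e.norm_eq_one] at h2
        linarith [h1 0, h1 1, h1 2]

end Pool.Agent.Results.MP_01ee34_gt.Band
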